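import Pool.Agent.Helper60.HC.GoalsP

set_option autoImplicit false

namespace Pool.Agent.Helper55.HC.QPI

open Pool.Agent.Helper29.BL

theorem part1 (σ : Type) [Fintype σ] (G : σ → Type) [∀ i, AddCommGroup (G i)]
    (H : ∀ i, G i → ℝ) (hH : ∀ i, IsQuad (H i)) :
    IsQuad (fun z : ∀ i, G i => ∑ i, H i (z i)) := by
  refine ⟨fun z => Finset.sum_nonneg fun i _ => (hH i).nonneg _, fun x y => ?_⟩
  simp only [Pi.add_apply, Pi.sub_apply, Finset.mul_sum, ← Finset.sum_add_distrib]
  exact Finset.sum_congr rfl fun i _ => (hH i).par _ _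

theorem part2 (σ : Type) [Fintype σ] (G : σ → Type) [∀ i, AddCommGroup (G i)]
    (Γ : ∀ i, AddSubgroup (G i)) (hΓ : ∀ i, (Γ i).FG) :
    (AddSubgroup.pi Set.univ Γ).FG := by
  classical
  choose S hS using hΓ
  refine (AddSubgroup.fg_iff _).2
    ⟨⋃ i, (AddMonoidHom.single G i) '' (S i : Set (G i)), ?_, ?_⟩
  · apply le_antisymm
    · rw [AddSubgroup.closure_le]
      intro z hz
      obtain ⟨i, hz⟩ := Set.mem_iUnion.1 hz
      obtain ⟨s, hs, rfl⟩ := hz
      have hs' : s ∈ Γ i := by
        rw [← hS i]
        exact AddSubgroup.subset_closure hs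
      show (AddMonoidHom.single G i) s ∈ AddSubgroup.pi Set.univ Γ
      rw [AddSubgroup.mem_pi]
      intro j _
      by_cases h : j = i
      · subst h
        simpa using hs'
      · have : (AddMonoidHom.single G i) s j = 0 := by
          simp [AddMonoidHom.single_apply, Pi.single_eq_of_ne h]
        rw [this]
        exact (Γ j).zero_mem
    · intro z hz
      rw [AddSubgroup.mem_pi] at hz
      have hz2 : z = ∑ i, (AddMonoidHom.single G i) (z i) := by
        simp only [AddMonoidHom.single_apply]
        exact (Finset.univ_sum_single z).symm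
      rw [hz2]
      refine AddSubgroup.sum_mem _ fun i _ => ?_
      have h1 : z i ∈ AddSubgroup.closure (S i : Set (G i)) := by
        rw [hS i]
        exact hz i (Set.mem_univ i)
      have h2 : (AddMonoidHom.single G i) (z i) ∈
          (AddSubgroup.closure (S i : Set (G i))).map (AddMonoidHom.single G i) :=
        AddSubgroup.mem_map_of_mem _ h1
      rw [AddMonoidHom.map_closure] at h2
      exact AddSubgroup.closure_mono (Set.subset_iUnion (fun i =>
        (AddMonoidHom.single G i) '' (S i : Set (G i))) i) h2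
  · exact Set.finite_iUnion fun i => (S i).finite_toSet.image _

theorem t : Helper60.HC.S_QPI :=
  ⟨fun σ _ G _ H hH => part1 σ G H hH, fun σ _ G _ Γ hΓ => part2 σ G Γ hΓ⟩

end Pool.Agent.Helper55.HC.QPI

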